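import Pool.Agent.H88.MCR.Stmts

/-!
# Row CNX of the board `mcr`
-/

set_option autoImplicit false

namespace Pool.MCR

theorem cnx_thm (hINB : INB_S) (hPRJ : PRJ_S) (hLOC : LOC_S) (hKIT : KIT_S) (hCLA : CLA_S)
    (hCLB : CLB_S) : CNX_S := by
  intro L _ n D w u r hG hw hu huw hR hF
  have hA := hCLA L n D w u r hG hw hu huw
  rw [if_pos hF.1] at hA
  have hB := (hCLB L n D w r hw).2.1
  have hK := (hKIT L n D hG).1
  refine ⟨?_, ?_⟩
  · intro z hz t ht _ _ _ _ _ hE
    obtain ⟨A, hA1, B, hB1, h1, h2⟩ := hE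
    refine ⟨la D w r u A, ?_, l0 B, ?_, h1, ?_⟩
    · rw [hA]
      exact List.mem_append_right _ (List.mem_map_of_mem hA1)
    · rw [hB z hz t ht]
      exact List.mem_map_of_mem hB1
    · obtain ⟨-, h3, h4, h5, h6, -⟩ := (hINB L A.2.1 A.2.2 B.2.1 B.2.2).2.2.2 h2
      exact (hPRJ L A.2.1 A.2.2 B.2.1 B.2.2 _ _ _ _ h3 h4 h5 h6).mpr h2
  · intro t ht htw htu
    have hr : 0 < r u := lt_of_lt_of_le zero_lt_one (hR.1 u)
    have k1 := hK w hw t ht (Ne.symm htw)
    have k2 := hK w hw u hu (Ne.symm huw)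
    rcases hs : D.S w t with _ | _
    · refine ⟨(false, lp (D.pos w) 1, lp (D.pos w) (- r u)), ?_,
        l0 (D.S w t, D.pos w, D.nx w t), ?_, ?_, ?_⟩
      · rw [hA]
        exact List.mem_append_left _ (List.mem_singleton.mpr rfl)
      · rw [hB w hw t ht]
        exact List.mem_map_of_mem k1.2.2.1
      · exact hs.symm
      · exact hLOC L |>.2.2.1 (D.pos w) (D.nx w t) (r u) 0 k1.2.1 hr
    · refine ⟨la D w r u (D.S w u, D.pos w, D.nx w u), ?_,
        l0 (D.S w t, D.pos w, D.nx w t), ?_, ?_, ?_⟩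
      · rw [hA]
        exact List.mem_append_right _ (List.mem_map_of_mem k2.2.2.1)
      · rw [hB w hw t ht]
        exact List.mem_map_of_mem k1.2.2.1
      · show D.S w u = D.S w t
        rw [hs, hF.1]
      · have h5 := (hLOC L).2.2.2.1 (D.pos w) (D.nx w u) (D.nx w t) (r u)
          (if D.nx w u = D.pos u then 0 else (if D.S w u = true then 1 else -1))
          (hF.2 t ht htw htu hs) hr
        show Inter (lp (D.pos w) (if D.pos w = D.pos w then (if D.S w u = true then - r u else 1)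
          else (if D.S w u = true then -1 else 1))) _ (lp (D.pos w) 0) (lp (D.nx w t) 0)
        rw [if_pos rfl, if_pos hF.1]
        exact h5

end Pool.MCR
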