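import Pool.Agent.H88.MCR.Stmts3

/-!
Row CVR of the board mcr (part 3): the points of an edge on the spine (after H72/MCR/CPV.lean).
-/

set_option autoImplicit false

namespace Pool.MCR

theorem cvr_thm (hEPT : EPT_S) (hKIR : KIR_S) : CVR_S := by
  intro R n D hD x hx y hy hxy
  obtain ⟨hK, -, -⟩ := hKIR ℝ R n D hD
  have hsub : ∀ u < n, ∀ v < n, R u v → curve (D.A u v) ⊆ curve (D.A v u) := by
    intro u hu v hv huv p hp
    obtain ⟨⟨s, a, b⟩, hA, hpA⟩ := hp
    refine ⟨(s, b, a), hD.symA u hu v hv huv s a b hA, ?_⟩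
    have h := (hEPT s a b).1.2.2.2
    change p ∈ arcSet s b a
    rw [← h]
    exact hpA
  have hstart : ∀ u < n, ∀ v < n, R u v → (D.pos u, (0 : ℝ)) ∈ curve (D.A u v) := by
    intro u hu v hv huv
    refine ⟨(D.S u v, D.pos u, D.nx u v), (hK u hu v hv huv).2.2.1, ?_⟩
    exact (hEPT (D.S u v) (D.pos u) (D.nx u v)).1.1
  have hspine : ∀ p ∈ curve (D.A x y), p.2 = 0 → p.1 ∈ D.P x y := by
    intro p hp h0
    obtain ⟨⟨s, a, b⟩, hA, hpA⟩ := hp
    have hab := (hK x hx y hy hxy).2.2.2.1 s a b hA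
    rcases ((hEPT s a b).2.1 p hpA).1 h0 with h | h
    · rw [h]; exact hab.1
    · rw [h]; exact hab.2.1
  have hyx : R y x := hD.sym x y hxy
  refine ⟨hstart x hx y hy hxy, hsub y hy x hx hyx (hstart y hy x hx hyx),
    hspine, ?_, Set.Subset.antisymm (hsub y hy x hx hyx) (hsub x hx y hy hxy)⟩
  intro z hz hmem
  have h := hspine _ hmem rfl
  change D.pos z ∈ D.pos x :: (D.E x y ++ [D.pos y]) at h
  rw [List.mem_cons, List.mem_append, List.mem_singleton] at h
  rcases h with h | h | h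
  · exact Or.inl (hD.pos_inj z hz x hx h)
  · exact absurd h (hD.notin x hx y hy z hz hxy)
  · exact Or.inr (hD.pos_inj z hz y hy h)

end Pool.MCR
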