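import Pool.Agent.H88.MCR.Stmts

/-!
# Row RST of the board `mcr`
-/

set_option autoImplicit false

namespace Pool.MCR

theorem rst_thm : RST_S := by
  intro V G Dr
  have hadj : ∀ u v, G.Adj u v → (⊤ : SimpleGraph V).Adj u v := fun u v h => h.ne
  have hsub : ∀ e ∈ G.edgeSet, e ∈ (⊤ : SimpleGraph V).edgeSet := by
    intro e he
    exact SimpleGraph.edgeSet_mono (le_top : G ≤ ⊤) he
  refine ⟨⟨Dr.pos, Dr.arc, Dr.pos_inj, fun u v h => Dr.arc_curve u v (hadj u v h),
    fun u v w h => Dr.arc_vertex u v w (hadj u v h),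
    fun e he f hf => Dr.arc_inter e (hsub e he) f (hsub f hf),
    fun e he f hf g hg => Dr.arc_triple e (hsub e he) f (hsub f hf) g (hsub g hg),
    fun e he f hf => Dr.arc_proper e (hsub e he) f (hsub f hf)⟩, ?_⟩
  intro e f h
  exact h

end Pool.MCR
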