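import Pool.Agent.H88.MCR.Stmts2

/-!
# Row TWU of the board `mcr`: effect of a twist on the first points
-/

set_option autoImplicit false

namespace Pool.MCR

theorem twu_last {L : Type} (c z : L) : ∀ (l : List L) (s : Bool) (h : L),
    (xor s (Nat.bodd (l.length + 1)), c, z) ∈ arcs s (h :: (l ++ [c] ++ [z])) := by
  intro l
  induction l with
  | nil =>
    intro s h
    cases s <;> simp [arcs]
  | cons a l ih =>
    intro s h
    have h1 := ih (!s) a
    have h2 : arcs s (h :: (a :: l ++ [c] ++ [z])) =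
        (s, h, a) :: arcs (!s) (a :: (l ++ [c] ++ [z])) := rfl
    rw [h2]
    refine List.mem_cons_of_mem _ ?_
    have h3 : xor s (Nat.bodd ((a :: l).length + 1)) = xor (!s) (Nat.bodd (l.length + 1)) := by
      rw [List.length_cons, Nat.bodd_succ (l.length + 1)]
      cases s <;> cases (Nat.bodd (l.length + 1)) <;> rfl
    rw [h3]
    exact h1

theorem twu_headD {L M : Type} (f : L → M) (l : List L) (d : L) :
    (l.map f).headD (f d) = f (l.headD d) := by
  cases l <;> rfl

theorem twu_thm (hKIT : KIT_S) : TWU_S := by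
  intro L _ n D w x hG hw hx hxw hS
  have hgen : ∀ a b, ¬ (a = w ∧ b = x) → ¬ (a = x ∧ b = w) →
      (twist D w x).S a b = D.S a b ∧ (twist D w x).nx a b = lp (D.nx a b) 0 := by
    intro a b h1 h2
    constructor
    · show (if a = w ∧ b = x then false
        else if a = x ∧ b = w then Nat.bodd ((D.E w x).length + 1) else D.S a b) = D.S a b
      rw [if_neg h1, if_neg h2]
    · show (if a = w ∧ b = x then lp (D.pos w) 1 :: (D.E w x).map (fun c => lp c 0)
        else if a = x ∧ b = w then (lp (D.pos w) 1 :: (D.E w x).map (fun c => lp c 0)).reverse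
        else (D.E a b).map (fun c => lp c 0)).headD (lp (D.pos b) 0) = lp (D.nx a b) 0
      rw [if_neg h1, if_neg h2]
      exact twu_headD (fun c => lp c (0 : ℤ)) (D.E a b) (D.pos b)
  have hK := ((hKIT L n D hG).1 x hx w hw hxw).2.2.2.1
  have hxwS : ∀ c : L, (xor (D.S w x) (Nat.bodd (D.E w x).length), c, D.pos x) ∈ D.A w x →
      D.S x w = Nat.bodd ((D.E w x).length + 1) ∧ D.nx x w = c := by
    intro c hc
    have h1 := hG.symA w hw x hx (Ne.symm hxw) _ _ _ hc
    have h2 := (hK _ _ _ h1).2.2.2.2.2 rfl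
    refine ⟨?_, h2.2.symm⟩
    rw [← h2.1, hS, Nat.bodd_succ]
    cases (Nat.bodd (D.E w x).length) <;> rfl
  have hwx : ¬ (x = w ∧ w = x) := fun h => hxw h.1
  have hmain : (twist D w x).S x w = D.S x w ∧
      ∃ k : ℤ, (twist D w x).nx x w = lp (D.nx x w) k := by
    have hS' : (twist D w x).S x w = Nat.bodd ((D.E w x).length + 1) := by
      show (if x = w ∧ w = x then false
        else if x = x ∧ w = w then Nat.bodd ((D.E w x).length + 1) else D.S x w) = _
      rw [if_neg hwx, if_pos ⟨rfl, rfl⟩]
    have hn' : (twist D w x).nx x w =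
        ((lp (D.pos w) 1 :: (D.E w x).map (fun c => lp c (0 : ℤ))).reverse).headD
          (lp (D.pos w) 0) := by
      show (if x = w ∧ w = x then lp (D.pos w) 1 :: (D.E w x).map (fun c => lp c 0)
        else if x = x ∧ w = w then (lp (D.pos w) 1 :: (D.E w x).map (fun c => lp c 0)).reverse
        else (D.E x w).map (fun c => lp c 0)).headD (lp (D.pos w) 0) = _
      rw [if_neg hwx, if_pos ⟨rfl, rfl⟩]
    rcases List.eq_nil_or_concat (D.E w x) with hE | ⟨l, c, hE⟩
    · have h1 : (xor (D.S w x) (Nat.bodd (D.E w x).length), D.pos w, D.pos x) ∈ D.A w x := by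
        unfold Diag.A Diag.P
        rw [hE]
        simp [arcs]
      have h2 := hxwS _ h1
      refine ⟨by rw [hS', h2.1], 1, ?_⟩
      rw [hn', h2.2, hE]
      simp
    · rw [List.concat_eq_append] at hE
      have h1 : (xor (D.S w x) (Nat.bodd (D.E w x).length), c, D.pos x) ∈ D.A w x := by
        unfold Diag.A Diag.P
        rw [hE]
        have h3 : (l ++ [c]).length = l.length + 1 := by simp
        rw [h3]
        exact twu_last c (D.pos x) l (D.S w x) (D.pos w)
      have h2 := hxwS _ h1
      refine ⟨by rw [hS', h2.1], 0, ?_⟩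
      rw [hn', h2.2, hE]
      simp
  refine ⟨?_, rfl, ?_, ?_, ?_⟩
  · intro u hu huw
    refine ⟨rfl, ?_⟩
    intro y hy hyu
    by_cases h : u = x ∧ y = w
    · obtain ⟨rfl, rfl⟩ := h
      exact hmain
    · have h1 := hgen u y (fun h' => huw h'.1) h
      exact ⟨h1.1, 0, h1.2⟩
  · show (if w = w ∧ x = x then false
        else if w = x ∧ x = w then Nat.bodd ((D.E w x).length + 1) else D.S w x) = false
    rw [if_pos ⟨rfl, rfl⟩]
  · show (if w = w ∧ x = x then lp (D.pos w) 1 :: (D.E w x).map (fun c => lp c 0)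
        else if w = x ∧ x = w then (lp (D.pos w) 1 :: (D.E w x).map (fun c => lp c 0)).reverse
        else (D.E w x).map (fun c => lp c 0)).headD (lp (D.pos x) 0) = lp (D.pos w) 1
    rw [if_pos ⟨rfl, rfl⟩]
    rfl
  · intro y hy hyw hyx
    exact hgen w y (fun h => hyx h.2) (fun h => hyw h.2)

end Pool.MCR
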